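import Pool.Agent.Helper48.AED.Spec

/-! AED, part INQ: the numerical part. -/

set_option autoImplicit false

namespace Pool.Agent.Helper86.AED.INQ

open Finset Pool.AED48

theorem main : S_INQ := by
  intro n d μ h0 h3 hneg hpos hper hn
  classical
  set F : Fin n → ℝ := fun a => μ a ^ 3 - 3 * μ a - 2 + (if -1 < μ a then 4 else 0) with hF
  set k : ℕ := (univ.filter (fun a => -1 < μ a)).card with hk
  have hsum : ∑ a, F a = 4 * (k : ℝ) - 2 * n := by
    simp only [hF]
    rw [Finset.sum_add_distrib, Finset.sum_sub_distrib, Finset.sum_sub_distrib, h3,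
      ← Finset.mul_sum, h0, ← Finset.sum_filter]
    simp only [Finset.sum_const, nsmul_eq_mul, Finset.card_univ, Fintype.card_fin]
    rw [← hk]
    ring
  have hkd : (k : ℝ) ≤ d + 1 := by exact_mod_cast hpos
  have hnR : (2 : ℝ) * d + 2 ≤ n := by exact_mod_cast hn
  have hle : ∑ a, F a ≤ 0 := by rw [hsum]; linarith
  -- each term with `μ a ≥ -1` is nonnegative
  have hF1 : ∀ a, -1 < μ a → F a = (μ a - 1) ^ 2 * (μ a + 2) := by
    intro a ha
    simp only [hF, if_pos ha]
    ring
  have hF2 : ∀ a, μ a = -1 → F a = 0 := by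
    intro a ha
    have : ¬ (-1 : ℝ) < μ a := by rw [ha]; exact lt_irrefl _
    simp only [hF, if_neg this]
    rw [ha]; norm_num
  have hF3 : ∀ a, -1 ≤ μ a → 0 ≤ F a := by
    intro a ha
    rcases ha.eq_or_lt with h | h
    · rw [hF2 a h.symm]
    · rw [hF1 a h]
      exact mul_nonneg (sq_nonneg _) (by linarith)
  have hF4 : ∀ a, -1 ≤ μ a → F a = 0 → μ a = 1 ∨ μ a = -1 := by
    intro a ha h
    rcases ha.eq_or_lt with h' | h'
    · exact Or.inr h'.symm
    · rw [hF1 a h'] at h
      rcases mul_eq_zero.1 h with h1 | h1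
      · left
        have := pow_eq_zero_iff (two_ne_zero) |>.1 h1
        linarith
      · exfalso; linarith
  have hnn : ∑ a, F a = 0 → n = 2 * d + 2 := by
    intro h
    rw [hsum] at h
    have h1 : (n : ℝ) ≤ 2 * d + 2 := by linarith
    have h2 : n ≤ 2 * d + 2 := by exact_mod_cast h1
    omega
  by_cases hcase : ∃ a, μ a < -1
  · obtain ⟨a₀, ha₀⟩ := hcase
    obtain ⟨b, hb⟩ := hper a₀
    have habs : |μ a₀| = -μ a₀ := abs_of_neg (by linarith)
    rw [habs] at hb
    have hb1 : 1 < μ b := by linarith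
    have hne : b ≠ a₀ := by
      rintro rfl
      linarith
    have hoth : ∀ a, a ≠ a₀ → -1 ≤ μ a := by
      intro a ha
      by_contra h
      exact ha (hneg a a₀ (not_le.1 h) ha₀)
    have hFa : F a₀ = μ a₀ ^ 3 - 3 * μ a₀ - 2 := by
      have : ¬ (-1 : ℝ) < μ a₀ := by linarith
      simp only [hF, if_neg this, add_zero]
    have hFb : F b = μ b ^ 3 - 3 * μ b + 2 := by
      have : (-1 : ℝ) < μ b := by linarith
      simp only [hF, if_pos this]
      ring
    have hab : F a₀ + F b = (μ b + μ a₀) * (μ b ^ 2 - μ b * μ a₀ + μ a₀ ^ 2 - 3) := by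
      rw [hFa, hFb]; ring
    have hfac : 0 < μ b ^ 2 - μ b * μ a₀ + μ a₀ ^ 2 - 3 := by
      nlinarith [mul_pos (sub_pos.2 hb1) (sub_pos.2 hb1)]
    have hsplit : ∑ a, F a = F a₀ + F b + ∑ a ∈ (univ.erase a₀).erase b, F a := by
      rw [← Finset.add_sum_erase univ F (mem_univ a₀),
        ← Finset.add_sum_erase (univ.erase a₀) F (mem_erase.2 ⟨hne, mem_univ b⟩)]
      ring
    have hrest : ∀ a ∈ (univ.erase a₀).erase b, 0 ≤ F a := by
      intro a ha
      exact hF3 a (hoth a (mem_erase.1 (mem_erase.1 ha).2).1)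
    have hrs := Finset.sum_nonneg hrest
    have habnn : 0 ≤ F a₀ + F b := by
      rw [hab]
      exact mul_nonneg (by linarith) hfac.le
    have hz : F a₀ + F b = 0 := by linarith
    have hz2 : ∑ a ∈ (univ.erase a₀).erase b, F a = 0 := by linarith
    have hbt : μ b = -μ a₀ := by
      rw [hab] at hz
      rcases mul_eq_zero.1 hz with h | h
      · linarith
      · linarith
    refine ⟨hnn (by linarith), Or.inr ⟨-μ a₀, a₀, b, by linarith, by ring, hbt, ?_⟩⟩
    intro a ha hab'
    have hmem : a ∈ (univ.erase a₀).erase b := mem_erase.2 ⟨hab', mem_erase.2 ⟨ha, mem_univ a⟩⟩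
    have := (Finset.sum_eq_zero_iff_of_nonneg hrest).1 hz2 a hmem
    exact hF4 a (hoth a ha) this
  · push Not at hcase
    have hall : ∀ a ∈ (univ : Finset (Fin n)), 0 ≤ F a := fun a _ => hF3 a (hcase a)
    have hs0 := Finset.sum_nonneg hall
    have hz : ∑ a, F a = 0 := le_antisymm hle hs0
    refine ⟨hnn hz, Or.inl fun a => ?_⟩
    exact hF4 a (hcase a) ((Finset.sum_eq_zero_iff_of_nonneg hall).1 hz a (mem_univ a))

end Pool.Agent.Helper86.AED.INQ
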